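import Pool.Agent.H650R3.Cyc.Codim

set_option autoImplicit false

/-!
Non-cyclicity in `D_t(𝔻^d)` from zero sets of arbitrary codimension.

Let `μ` be a nonzero finite measure on `T^J × {0}` for which a polynomial `P` vanishes almost
everywhere, and let `A` run over a finite family of index sets such that the marginal of `μ` on the
coordinates outside `A` is square integrable (`SqMarginal A μ`). If the sets `A` carry weights
`lam A ≥ 0` with sum `1` such that every `j` in `J` is covered with total weight at most `σ`, then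
`P` is not shift-cyclic in `D_t` for any `t > σ`.
-/

namespace Pool.Agent.Results.MP_f1c2ec_an.CodimZeros

open Pool.Agent.H650R3.Cyc MeasureTheory

theorem result (d : ℕ) (t σ : ℝ) (hσ0 : 0 < σ) (hσt : σ < t) (J : Finset (Fin d))
    (F : Finset (Finset (Fin d))) (lam : Finset (Fin d) → ℝ) (hlam : ∀ A ∈ F, 0 ≤ lam A)
    (hsum : ∑ A ∈ F, lam A = 1) (hσ : ∀ j ∈ J, ∑ A ∈ F with j ∈ A, lam A ≤ σ)
    (μ : Measure (Fin d → ℂ)) [IsFiniteMeasure μ] (hμ : μ ≠ 0) (hT : OnTorus J μ)
    (hm : ∀ A ∈ F, SqMarginal A μ) (P : MvPolynomial (Fin d) ℂ)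
    (h0 : ∀ᵐ z ∂μ, MvPolynomial.eval z P = 0) :
    ¬ ShiftCyclic t (P : MvPowerSeries (Fin d) ℂ) :=
  codim_nec hσ0 hσt F lam hlam hsum hσ hμ hT hm h0

end Pool.Agent.Results.MP_f1c2ec_an.CodimZeros
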