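import Pool.Agent.H650R3.Cyc.Meas

set_option autoImplicit false

/-!
Shift-cyclicity in `D_t(𝔻^d)` of polynomials whose zero set carries a thick measure.

Let `J` be a nonempty set of `k` indices and let `P` be a polynomial without zeros in the open
polydisk, in at most `k` variables, which vanishes almost everywhere for a nonzero finite measure
`μ` on `T^J × {0}` whose marginals along the coordinates `j` in `J` are square integrable in the
sense of `SqMarginals`. Then `P` is shift-cyclic in `D_t` exactly when `t ≤ 1 / k`.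
-/

namespace Pool.Agent.Results.MP_f1c2ec_an.HypersurfaceZeros

open Pool.Agent.H650R3.Cyc MeasureTheory

theorem result (d : ℕ) (t : ℝ) (J : Finset (Fin d)) (hJ : J.Nonempty)
    (P : MvPolynomial (Fin d) ℂ) (hz : ZeroFree P) (hP : P.vars.card ≤ J.card)
    (μ : Measure (Fin d → ℂ)) [IsFiniteMeasure μ] (hμ : μ ≠ 0) (hT : OnTorus J μ)
    (hm : SqMarginals J μ) (h0 : ∀ᵐ z ∂μ, MvPolynomial.eval z P = 0) :
    ShiftCyclic t (P : MvPowerSeries (Fin d) ℂ) ↔ t * J.card ≤ 1 := by
  constructor
  · intro h
    by_contra hlt
    exact meas_nec hJ (not_le.mp hlt) hμ hT hm h0 h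
  · intro ht
    apply cyclic_of_approx
    exact cyc_main (Finset.card_pos.mpr hJ) ht P hP hz

end Pool.Agent.Results.MP_f1c2ec_an.HypersurfaceZeros
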