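import Pool.Agent.H650R3.Cyc.NoZero

set_option autoImplicit false

/-!
Shift-cyclicity in `D_t(𝔻^d)` of products of polynomials with dominant constant term.

Let `P ≠ 0` satisfy `|c_0| ≥ ∑_{α ≠ 0} |c_α|`, and let `Λ` be the set of the `β` in `ℕ^d` which are
differences of two elements of the additive monoid generated by the exponents of `P`. Then `P` is
shift-cyclic in `D_t` exactly when `P` has no zero on the torus or `∑_{β ∈ Λ} ∏ (1 + β_j)^(-t)`
diverges. A product of such polynomials is shift-cyclic exactly when every factor is.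
-/

namespace Pool.Agent.Results.MP_f1c2ec_an.LatticeSum

open Pool.Agent.H650R3.Cyc

theorem result (d : ℕ) (t : ℝ) (l : List (MvPolynomial (Fin d) ℂ))
    (hl : ∀ P ∈ l, P ≠ 0 ∧ ∑ α ∈ P.support.erase 0, ‖P.coeff α‖ ≤ ‖P.coeff 0‖) :
    ShiftCyclic t ((l.prod : MvPolynomial (Fin d) ℂ) : MvPowerSeries (Fin d) ℂ) ↔
      ∀ P ∈ l, (∀ ζ : Fin d → ℂ, (∀ j, ‖ζ j‖ = 1) → MvPolynomial.eval ζ P ≠ 0) ∨
        ¬ Summable (latTerm t P) := by
  classical
  have hc0 : ∀ P ∈ l, P.coeff 0 ≠ 0 := by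
    intro P hP h0
    obtain ⟨h1, h2⟩ := hl P hP
    rw [h0, norm_zero] at h2
    apply h1
    ext α
    rw [MvPolynomial.coeff_zero]
    by_cases hα : α = 0
    · rw [hα, h0]
    · by_contra hne
      have h3 : α ∈ P.support.erase 0 :=
        Finset.mem_erase.mpr ⟨hα, MvPolynomial.mem_support_iff.mpr hne⟩
      have h4 := Finset.single_le_sum (f := fun α => ‖P.coeff α‖)
        (fun _ _ => norm_nonneg _) h3
      have h5 : 0 < ‖P.coeff α‖ := norm_pos_iff.mpr hne
      linarith
  constructor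
  · intro h P hP
    rw [← dom_crit (hc0 P hP) (hl P hP).2]
    obtain ⟨l1, l2, rfl⟩ := List.append_of_mem hP
    apply cyclic_of_approx
    intro ε hε
    obtain ⟨Q, hQ1, hQ2⟩ := h.2 1 (mem_one t) ε hε
    refine ⟨Q * (l1.prod * l2.prod), ?_⟩
    have e : (Q : MvPowerSeries (Fin d) ℂ) *
        (((l1 ++ P :: l2).prod : MvPolynomial (Fin d) ℂ) : MvPowerSeries (Fin d) ℂ) =
        ((Q * (l1.prod * l2.prod) : MvPolynomial (Fin d) ℂ) : MvPowerSeries (Fin d) ℂ) *
          (P : MvPowerSeries (Fin d) ℂ) := by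
      rw [← MvPolynomial.coe_mul, ← MvPolynomial.coe_mul, List.prod_append, List.prod_cons]
      congr 1
      ring
    rw [← e]
    exact ⟨hQ1, hQ2⟩
  · intro h
    apply cyclic_of_approx
    apply approx_prod
    intro P hP
    exact ((dom_crit (hc0 P hP) (hl P hP).2).mpr (h P hP)).2 1 (mem_one t)

end Pool.Agent.Results.MP_f1c2ec_an.LatticeSum
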