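import Pool.Agent.H650R3.Cyc.Final

set_option autoImplicit false

/-!
Shift-cyclic polynomials in the Dirichlet-type spaces `D_t(𝔻^d)` of the polydisk.

For `t ≤ 1`, a product of polynomials each in at most `1 / t` variables (no condition if `t ≤ 0`)
and of binomials `1 - c z^β` with `|c| = 1`, `β ≠ 0` is shift-cyclic exactly when the polynomials
of the first kind have no zero in the open polydisk and `t * |supp β| ≤ 1` for every binomial.

In particular, for `t ≤ 1 / d` a polynomial is shift-cyclic exactly when it has no zero in the open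
polydisk, and the range `t ≤ 1 / d` is best possible, because of `1 - z_1 ⋯ z_d`.
-/

namespace Pool.Agent.Results.MP_f1c2ec_an.SharpRange

open Pool.Agent.H650R3.Cyc

theorem result (d : ℕ) (t : ℝ) (ht : t ≤ 1)
    (l : List (MvPolynomial (Fin d) ℂ)) (hl : ∀ P ∈ l, t * P.vars.card ≤ 1)
    (m : List (ℂ × (Fin d →₀ ℕ))) (hm : ∀ q ∈ m, ‖q.1‖ = 1 ∧ q.2 ≠ 0) :
    ShiftCyclic t (((l.prod * (m.map fun q => 1 - MvPolynomial.monomial q.2 q.1).prod :
        MvPolynomial (Fin d) ℂ)) : MvPowerSeries (Fin d) ℂ) ↔
      (∀ P ∈ l, ZeroFree P) ∧ ∀ q ∈ m, t * q.2.support.card ≤ 1 := by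
  constructor
  · intro h
    constructor
    · have h0 := zeroFree_of_cyclic h
      intro P hP z hz h1
      refine h0 z hz ?_
      obtain ⟨l1, l2, rfl⟩ := List.append_of_mem hP
      rw [List.prod_append, List.prod_cons]
      simp only [map_mul, h1]
      ring
    · intro q hq
      by_contra hlt
      obtain ⟨h1, h2⟩ := hm q hq
      obtain ⟨l1, l2, rfl⟩ := List.append_of_mem hq
      have e : l.prod *
          ((l1 ++ q :: l2).map fun q => 1 - MvPolynomial.monomial q.2 q.1).prod =
          (l.prod * (l1.map fun q => 1 - MvPolynomial.monomial q.2 q.1).prod *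
            (l2.map fun q => 1 - MvPolynomial.monomial q.2 q.1).prod) * binom q.1 q.2 := by
        rw [List.map_append, List.prod_append, List.map_cons, List.prod_cons, binom]
        ring
      rw [e] at h
      exact binom_not_cyclic h1 h2 (not_le.mp hlt) _ h
  · rintro ⟨hz, hc⟩
    apply cyclic_of_approx
    rw [← List.prod_append]
    apply approx_prod
    intro P hP
    rw [List.mem_append] at hP
    rcases hP with hP | hP
    · have h1 := hl P hP
      have h2 := hz P hP
      apply cyc_main (k := max 1 P.vars.card) (le_max_left _ _) _ P (le_max_right _ _) h2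
      rcases max_choice 1 P.vars.card with h | h
      · rw [h]
        simpa using ht
      · rw [h]
        exact h1
    · rw [List.mem_map] at hP
      obtain ⟨q, hq, rfl⟩ := hP
      obtain ⟨h1, h2⟩ := hm q hq
      have hcard : 1 ≤ q.2.support.card := by
        rw [Nat.one_le_iff_ne_zero, Ne, Finset.card_eq_zero, Finsupp.support_eq_empty]
        exact h2
      exact cyc_main hcard (hc q hq) _ (binom_vars q.1 q.2) (binom_zeroFree h1 h2)

end Pool.Agent.Results.MP_f1c2ec_an.SharpRange
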